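import Pool.Agent.Work.MP_1ea053_nt.Cored5

/-!
# CORED, part 5, count version
-/

set_option autoImplicit false

namespace Pool.Agent.GapTwo.CORED_

open Finset Filter
open scoped Classical Topology

lemma CC_many_eight (S : Finset ℕ) (Ω : ℕ → ℝ) (A : Fin 26 → ℕ → Prop) (hΩ : ∀ n ∈ S, 0 ≤ Ω n)
    (h : ∀ s, 7.0001 / 26 * ∑ n ∈ S, Ω n ≤ ∑ n ∈ S.filter (A s), Ω n) :
    1 / 10000 * ∑ n ∈ S, Ω n ≤ 19 * ∑ n ∈ S.filter (fun n => 8 ≤ (univ.filter fun s => A s n).card), Ω n := by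
  have h1 : ∑ s : Fin 26, ∑ n ∈ S.filter (A s), Ω n ≤ 7 * ∑ n ∈ S, Ω n +
      19 * ∑ n ∈ S.filter (fun n => 8 ≤ (univ.filter fun s => A s n).card), Ω n := by
    have h2 : ∑ s : Fin 26, ∑ n ∈ S.filter (A s), Ω n =
        ∑ n ∈ S, ((univ.filter fun s => A s n).card : ℝ) * Ω n := by
      simp_rw [sum_filter]
      rw [sum_comm]
      apply sum_congr rfl
      intro n _
      rw [← sum_filter, sum_const, nsmul_eq_mul]
    rw [h2, mul_sum, mul_sum, sum_filter, ← sum_add_distrib]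
    apply sum_le_sum
    intro n hn
    have h0 := hΩ n hn
    split_ifs with hc
    · have h3 : ((univ.filter fun s => A s n).card : ℝ) ≤ 26 := by
        have h4 : (univ.filter fun s => A s n).card ≤ 26 := by
          have := card_le_univ (univ.filter fun s => A s n)
          simpa using this
        exact_mod_cast h4
      have h5 := mul_le_mul_of_nonneg_right h3 h0
      linarith
    · have h3 : ((univ.filter fun s => A s n).card : ℝ) ≤ 7 := by
        exact_mod_cast (by omega : (univ.filter fun s => A s n).card ≤ 7)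
      have h5 := mul_le_mul_of_nonneg_right h3 h0
      linarith
  have h3 : ∑ s : Fin 26, (7.0001 / 26 * ∑ n ∈ S, Ω n) ≤ ∑ s : Fin 26, ∑ n ∈ S.filter (A s), Ω n :=
    sum_le_sum fun s _ => h s
  rw [sum_const, card_univ, Fintype.card_fin, nsmul_eq_mul] at h3
  push_cast at h3
  linarith

theorem core_fixedC (hT1 : Stmt_T1) (hLOC : Stmt_LOC) {k : ℕ} (hk : 1 ≤ k)
    (a : Fin 26 × Fin k → ℕ) {D₀ : ℕ} (ha : ∀ i, 0 < a i) (hinj : Function.Injective a)
    (hDa : ∀ i, a i < D₀) {N η₁ η δ Cb κ : ℝ} (hD : 2 ≤ D₀) (hκ : 0 < κ) (hκ1 : κ ≤ 1)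
    (hDN : (D₀ : ℝ) ≤ N ^ η₁) (hη : N ^ η₁ ≤ N ^ η) (hη0 : 0 < η) (hη1 : η ≤ 1) (hN : 3 ≤ N)
    (hNa : 3 * (D₀ : ℝ) ≤ N) (hδ : 0 < δ) (hδ4 : 4 * δ ≤ 1) (hCb : 1 ≤ Cb)
    (hθη : η ≤ θ₀ / 3)
    {c0 cL : Finset (ℕ × (Fin 26 × Fin k)) → ℝ}
    {cV : Fin 26 × Fin k → Finset (ℕ × (Fin 26 × Fin k)) → ℝ}
    (h0 : Lev (XX (Fin 26 × Fin k) D₀ (N ^ η₁)) c0 (N ^ δ) 1) (h0n : ∀ S, 0 ≤ poly c0 S)
    (hcL : Lev (XX (Fin 26 × Fin k) (N ^ η₁) (N ^ η)) cL (N ^ δ) Cb)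
    (hcV : ∀ i, Lev (XX (Fin 26 × Fin k) (N ^ η₁) (N ^ η)) (cV i) (N ^ δ) 1)
    (hcVi : ∀ i T, cV i T ≠ 0 → ∀ x ∈ T, x.2 = i) (hcVn : ∀ i S, 0 ≤ poly (cV i) S)
    (hcV1 : ∀ i, cV i ∅ = 1)
    {lam : ℕ → ℝ} {M : ℕ} (hlam : Ros η M N lam) {B s₁ r' : ℝ}
    (hB : ∀ c' : Finset (ℕ × (Fin 26 × Fin k)) → ℝ,
      Lev (XX (Fin 26 × Fin k) D₀ (N ^ η)) c' (N ^ (8 * δ)) (3 * (27 * Cb ^ 2)) →
      ∑ T ∈ (XX (Fin 26 × Fin k) D₀ (N ^ η)).powerset, |c' T| ≤ B)
    (happ : ∀ c : Finset (ℕ × (Fin 26 × Fin k)) → ℝ,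
      Lev (XX (Fin 26 × Fin k) (N ^ η₁) (N ^ η)) c N (27 * Cb ^ 2) →
      |Eloc (XX (Fin 26 × Fin k) (N ^ η₁) (N ^ η)) c
        - Eid (XX (Fin 26 × Fin k) (N ^ η₁) (N ^ η)) (poly c)| ≤ s₁)
    (hvar : ∀ c : Finset (ℕ × (Fin 26 × Fin k)) → ℝ,
      Lev (XX (Fin 26 × Fin k) D₀ (N ^ η)) c (N ^ (8 * δ)) (3 * (27 * Cb ^ 2)) →
      ∀ i j, i ≠ j →
      |∑ n ∈ NW (WW D₀) N κ, poly c (ev a (XX (Fin 26 × Fin k) D₀ (N ^ η)) n) *
        (gg lam (a i * n + 1) * gg lam (a j * n + 1))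
      - gam N lam ^ 2 * (κ * N / WW D₀ * Eloc (XX (Fin 26 × Fin k) D₀ (N ^ η)) c)| ≤ r')
    {Q Q₀ q Z x CE e : ℝ} (he : e = 1 / 10 ^ 12)
    (hZ : Z = κ * N / WW D₀ * Eloc (XX (Fin 26 × Fin k) D₀ (N ^ η₁)) c0) (hZ0 : 0 < Z)
    (hQ₀ : Q₀ = Eid (XX (Fin 26 × Fin k) (N ^ η₁) (N ^ η)) (fun S => poly cL S ^ 2))
    (hQ₀1 : 1 ≤ Q₀) (hq : 0 < q) (hx : 0 < x) (hCE : CE = 4 ^ ⌊2 / η⌋₊)
    (i2 : ∀ i, (1 - e) * q ≤ Eid (XX (Fin 26 × Fin k) (N ^ η₁) (N ^ η))
      (fun S => poly cL S ^ 2 * poly (cV i) S))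
    (i3 : ∀ i, Eid (XX (Fin 26 × Fin k) (N ^ η₁) (N ^ η))
      (fun S => poly cL S ^ 2 * poly (cV i) S) ≤ (1 + e) * q)
    (i4 : ∀ i, Eid (XX (Fin 26 × Fin k) (N ^ η₁) (N ^ η))
      (fun S => poly cL S ^ 2 * poly (cV i) S ^ 2) ≤ 2 * q)
    (i5 : ∀ i j, i ≠ j → Eid (XX (Fin 26 × Fin k) (N ^ η₁) (N ^ η))
      (fun S => poly cL S ^ 2 * poly (cV i) S * poly (cV j) S) * Q₀ ≤ (1 + e) * q ^ 2)
    (n1 : s₁ ≤ e / 2) (n2 : s₁ ≤ e * q) (n3 : Q₀ * s₁ ≤ e * q ^ 2) (hB0 : 0 ≤ B) (hr'0 : 0 ≤ r')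
    (n4 : B ≤ e / 2 * Z) (n5 : N ^ θ₀ * B ≤ e * (x * (Z * Q₀))) (n6 : r' ≤ e * (x ^ 2 * (Z * Q₀)))
    (n7 : B ≤ 1 / 2 * (Z * q)) (n8 : 6 * CE * q ≤ e * k * x ^ 2 * Q₀)
    (n9 : gam N lam * q ≤ 3.70985 * x * Q₀)
    (ht2 : ∀ i, (1 - 6 * e) * (x * (Z * Q₀)) ≤
      ∑ n ∈ (NW (WW D₀) N κ).filter (fun n => (a i * n + 1).Prime),
        poly c0 (ev a (XX (Fin 26 × Fin k) D₀ (N ^ η)) n) *
          poly cL (ev a (XX (Fin 26 × Fin k) D₀ (N ^ η)) n) ^ 2) :
    1 / 10 ^ 6 * Z ≤ B * (((NW (WW D₀) N κ).filter fun n =>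
      8 ≤ (univ.filter fun s : Fin 26 => ∃ l, (a (s, l) * n + 1).Prime).card).card : ℝ) := by
  obtain ⟨m1, m2, m3⟩ := med_props hLOC (by linarith : (1 : ℝ) ≤ N) hδ hCb hcL hcV
  have hC1 : (1 : ℝ) ≤ 27 * Cb ^ 2 := by nlinarith
  have he0 : 0 < e := by rw [he]; norm_num
  have hN1 : (1 : ℝ) ≤ N := by linarith
  have hL1 := @hLOC.1
  have hNδ : N ^ (4 * δ) ≤ N := by
    calc N ^ (4 * δ) ≤ N ^ (1 : ℝ) := Real.rpow_le_rpow_of_exponent_le hN1 hδ4
      _ = N := Real.rpow_one N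
  have hup : ∀ c : Finset (ℕ × (Fin 26 × Fin k)) → ℝ,
      Lev (XX (Fin 26 × Fin k) (N ^ η₁) (N ^ η)) c (N ^ (4 * δ)) (27 * Cb ^ 2) →
      Lev (XX (Fin 26 × Fin k) (N ^ η₁) (N ^ η)) c N (27 * Cb ^ 2) := fun c hc =>
    hc.mono (Subset.refl _) hNδ (by linarith) le_rfl
  set X2 := XX (Fin 26 × Fin k) (N ^ η₁) (N ^ η) with hX2
  set X := XX (Fin 26 × Fin k) D₀ (N ^ η) with hX
  set Ω : ℕ → ℝ := fun n => poly c0 (ev a X n) * poly cL (ev a X n) ^ 2 with hΩ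
  set Vf : Fin 26 × Fin k → ℕ → ℝ := fun i n => poly (cV i) (ev a X n) with hVf
  set gf : Fin 26 × Fin k → ℕ → ℝ := fun i n => gg lam (a i * n + 1) with hgf
  have hΩ0 : ∀ n, 0 ≤ Ω n := fun n => mul_nonneg (h0n _) (sq_nonneg _)
  have hV0 : ∀ i n, 0 ≤ Vf i n := fun i n => hcVn i _
  have hg0 : ∀ i n, 0 ≤ gf i n := fun i n => hlam.nonneg _ (by omega)
  have hgam : 0 ≤ gam N lam := gam_nonneg hlam
  have hNη : N ^ η ≤ N := by
    calc N ^ η ≤ N ^ (1 : ℝ) := Real.rpow_le_rpow_of_exponent_le hN1 hη1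
      _ = N := Real.rpow_one N
  -- the four evaluations
  have ev1 := (eval hT1 hLOC a ha hinj hDa hD hκ.le hDN hη hN1 hδ hC1 h0 m1 hB).1
  have ev2 : ∀ i, |∑ n ∈ NW (WW D₀) N κ, Ω n * (Vf i n * gf i n) -
      gam N lam * (Z * Eloc X2 (mul (mul cL cL) (cV i)))| ≤ N ^ θ₀ * B := by
    intro i
    have h := (eval hT1 hLOC a ha hinj hDa hD hκ.le hDN hη hN1 hδ hC1 h0 (m2 i) hB).2 M lam hlam i
    rw [← hZ] at h
    convert h using 3
    apply sum_congr rfl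
    intro n _
    simp only [hΩ, hVf, hgf]
    rw [hL1, hL1]
    ring
  have ev3 : ∀ i, |∑ n ∈ NW (WW D₀) N κ, Ω n * Vf i n ^ 2 -
      Z * Eloc X2 (mul (mul (mul cL cL) (cV i)) (cV i))| ≤ B := by
    intro i
    have h := (eval hT1 hLOC a ha hinj hDa hD hκ.le hDN hη hN1 hδ hC1 h0 (m3 i i) hB).1
    rw [← hZ] at h
    convert h using 3
    apply sum_congr rfl
    intro n _
    simp only [hΩ, hVf]
    rw [hL1, hL1, hL1]
    ring
  have ev4 : ∀ i j, i ≠ j → |∑ n ∈ NW (WW D₀) N κ, Ω n * ((Vf i n * gf i n) * (Vf j n * gf j n)) -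
      gam N lam ^ 2 * (Z * Eloc X2 (mul (mul (mul cL cL) (cV i)) (cV j)))| ≤ r' := by
    intro i j hij
    obtain ⟨f1, f2, _⟩ := full_props hLOC hD hDN hη hN1 hδ hC1 h0 (m3 i j)
    have h := hvar _ f1 i j hij
    rw [f2, ← mul_assoc (κ * N / WW D₀), ← hZ] at h
    convert h using 3
    apply sum_congr rfl
    intro n _
    simp only [hΩ, hVf, hgf]
    rw [hL1, hL1, hL1, hL1]
    ring
  -- values of Eid
  have id1 : Eid X2 (poly (mul cL cL)) = Q₀ := by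
    rw [hQ₀]
    congr 1
    funext S
    rw [hL1]; ring
  have id2 : ∀ i, Eid X2 (poly (mul (mul cL cL) (cV i))) =
      Eid X2 (fun S => poly cL S ^ 2 * poly (cV i) S) := by
    intro i
    congr 1
    funext S
    rw [hL1, hL1]; ring
  have id3 : ∀ i j, Eid X2 (poly (mul (mul (mul cL cL) (cV i)) (cV j))) =
      Eid X2 (fun S => poly cL S ^ 2 * poly (cV i) S * poly (cV j) S) := by
    intro i j
    congr 1
    funext S
    rw [hL1, hL1, hL1]; ring
  have ap1 := happ _ (hup _ m1)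
  have ap2 := fun i => happ _ (hup _ (m2 i))
  have ap3 := fun i j => happ _ (hup _ (m3 i j))
  rw [id1] at ap1
  have hs1 : 0 ≤ s₁ := (abs_nonneg _).trans ap1
  -- S₀
  rw [← hZ] at ev1
  have ev1' : |∑ n ∈ NW (WW D₀) N κ, Ω n - Z * Eloc X2 (mul cL cL)| ≤ B := by
    convert ev1 using 3
    apply sum_congr rfl
    intro n _
    simp only [hΩ]
    rw [hL1]
    ring
  have hS0 : |∑ n ∈ NW (WW D₀) N κ, Ω n - Z * Q₀| ≤ e * (Z * Q₀) := by
    have h1 : |Z * Eloc X2 (mul cL cL) - Z * Q₀| ≤ Z * (e / 2) := by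
      rw [← mul_sub, abs_mul, abs_of_pos hZ0]
      exact mul_le_mul_of_nonneg_left (ap1.trans n1) hZ0.le
    have hZQ : Z ≤ Z * Q₀ := le_mul_of_one_le_right hZ0.le hQ₀1
    have he2 : 0 ≤ e / 2 := by linarith
    have h2 : Z * (e / 2) ≤ e / 2 * (Z * Q₀) := by
      rw [mul_comm Z]
      exact mul_le_mul_of_nonneg_left hZQ he2
    have h3 : B ≤ e / 2 * (Z * Q₀) := n4.trans (mul_le_mul_of_nonneg_left hZQ he2)
    calc |∑ n ∈ NW (WW D₀) N κ, Ω n - Z * Q₀| ≤ |∑ n ∈ NW (WW D₀) N κ, Ω n - Z * Eloc X2 (mul cL cL)|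
          + |Z * Eloc X2 (mul cL cL) - Z * Q₀| := abs_sub_le _ _ _
      _ ≤ e / 2 * (Z * Q₀) + e / 2 * (Z * Q₀) := by linarith
      _ = e * (Z * Q₀) := by ring
  rw [abs_le] at hS0
  have hU : 0 < Z * Q₀ := by positivity
  set t := gam N lam * (Z * q) with ht
  have ht0 : 0 ≤ t := by positivity
  have hgi : ∀ i, ∀ n ∈ NW (WW D₀) N κ, gf i n ^ 2 ≤ CE := by
    intro i n hn
    rw [hCE]
    apply gg_le hlam hη0 (by linarith) (by omega)
    rcases mem_NW (by linarith) hn with h | h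
    · push_cast
      have h1 : (a i : ℝ) ≤ D₀ := by exact_mod_cast (hDa i).le
      have h2 : (n : ℝ) ≤ 2 * N := by nlinarith [h.2.2]
      have h3 : (a i : ℝ) * n ≤ D₀ * (2 * N) := mul_le_mul h1 h2 (by positivity) (by positivity)
      rw [Real.rpow_two]
      have h4 : (2 : ℝ) ≤ D₀ := by exact_mod_cast hD
      nlinarith
    · exact h.elim
  have hpr : ∀ i, ∀ n ∈ NW (WW D₀) N κ, (a i * n + 1).Prime → Vf i n * gf i n = 1 := by
    intro i n hn hp
    have hnN : N < (a i * n + 1 : ℕ) := by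
      rcases mem_NW (by linarith) hn with h | h
      · push_cast
        have h1 : (1 : ℝ) ≤ a i := by exact_mod_cast ha i
        nlinarith [h.2.1]
      · exact h.elim
    have h1 : Vf i n = 1 := poly_cV_eq_one (a := a) (D₀ := D₀) (fun T hT => ((hcV i).supp T hT).1)
      (hcVi i) (hcV1 i) hNη hnN hp X
    have h2 : gf i n = 1 := by
      simp only [hgf]
      unfold gg
      rw [hp.divisors, sum_pair hp.one_lt.ne, hlam.one]
      have : lam (a i * n + 1) = 0 := by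
        by_contra hne
        have h3 := (hlam.supp _ hne).1
        have h4 : N ^ θ₀ ≤ N := by
          calc N ^ θ₀ ≤ N ^ (1 : ℝ) := Real.rpow_le_rpow_of_exponent_le hN1 (by unfold θ₀; norm_num)
            _ = N := Real.rpow_one N
        linarith
      rw [this, add_zero]
    rw [h1, h2, one_mul]
  -- the events
  set Xf : Fin 26 × Fin k → ℕ → ℝ := fun i n => if (a i * n + 1).Prime then 1 else 0 with hXf
  obtain ⟨A, hA⟩ : ∃ A : Fin 26 → ℕ → Prop, ∀ s n, A s n ↔ ∃ l, (a (s, l) * n + 1).Prime :=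
    ⟨fun s n => ∃ l, (a (s, l) * n + 1).Prime, fun _ _ => Iff.rfl⟩
  have hmain : ∀ s : Fin 26, 7.0001 / 26 * ∑ n ∈ NW (WW D₀) N κ, Ω n ≤
      ∑ n ∈ (NW (WW D₀) N κ).filter (A s), Ω n := by
    intro s
    apply cluster (NW (WW D₀) N κ) Ω k hk (fun l n => Vf (s, l) n * gf (s, l) n)
      (fun l n => Xf (s, l) n) (fun n _ => hΩ0 n)
      (fun l n _ => mul_nonneg (hV0 _ n) (hg0 _ n)) _ he hU ht0 hx
      (r := N ^ θ₀ * B) (r' := r') (by positivity) hr'0 (dd := 3 * CE * (Z * q))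
    · have h1 : (1 - e) * (Z * Q₀) = Z * Q₀ - e * (Z * Q₀) := by ring
      rw [h1]
      linarith [hS0.1]
    · have h1 : (1 + 2 * e) * (Z * Q₀) = Z * Q₀ + e * (Z * Q₀) + e * (Z * Q₀) := by ring
      rw [h1]
      have h2 : 0 ≤ e * (Z * Q₀) := mul_nonneg he0.le hU.le
      linarith [hS0.2]
    · intro l
      have h1 := (abs_le.1 (ev2 (s, l))).1
      have h2 := (abs_le.1 (ap2 (s, l))).1
      rw [id2] at h2
      have h3 := i2 (s, l)
      have h4 : (1 - 2 * e) * q ≤ Eloc X2 (mul (mul cL cL) (cV (s, l))) := by linarith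
      have h5 : (1 - 2 * e) * t ≤ gam N lam * (Z * Eloc X2 (mul (mul cL cL) (cV (s, l)))) := by
        have h6 := mul_le_mul_of_nonneg_left h4 (show 0 ≤ gam N lam * Z by positivity)
        rw [ht]
        linarith
      linarith
    · intro l
      have h1 := (abs_le.1 (ev2 (s, l))).2
      have h2 := (abs_le.1 (ap2 (s, l))).2
      rw [id2] at h2
      have h3 := i3 (s, l)
      have h4 : Eloc X2 (mul (mul cL cL) (cV (s, l))) ≤ (1 + 2 * e) * q := by linarith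
      have h5 : gam N lam * (Z * Eloc X2 (mul (mul cL cL) (cV (s, l)))) ≤ (1 + 2 * e) * t := by
        have h6 := mul_le_mul_of_nonneg_left h4 (show 0 ≤ gam N lam * Z by positivity)
        rw [ht]
        linarith
      linarith
    · intro l l' hll
      have hne : ((s, l) : Fin 26 × Fin k) ≠ (s, l') := by
        intro h
        exact hll (Prod.mk.inj h).2
      have h1 := (abs_le.1 (ev4 (s, l) (s, l') hne)).2
      have h2 := (abs_le.1 (ap3 (s, l) (s, l'))).2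
      rw [id3] at h2
      have h3 := i5 (s, l) (s, l') hne
      have h4 : Q₀ * Eloc X2 (mul (mul (mul cL cL) (cV (s, l))) (cV (s, l'))) ≤ (1 + 2 * e) * q ^ 2 := by
        have h5 := mul_le_mul_of_nonneg_left h2 (show 0 ≤ Q₀ by linarith)
        have h6 : Q₀ * (Eloc X2 (mul (mul (mul cL cL) (cV (s, l))) (cV (s, l'))) -
          Eid X2 (fun S => poly cL S ^ 2 * poly (cV (s, l)) S * poly (cV (s, l')) S)) =
          Q₀ * Eloc X2 (mul (mul (mul cL cL) (cV (s, l))) (cV (s, l'))) -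
          Eid X2 (fun S => poly cL S ^ 2 * poly (cV (s, l)) S * poly (cV (s, l')) S) * Q₀ := by ring
        rw [h6] at h5
        linarith
      have h5 : Z * Q₀ * (gam N lam ^ 2 * (Z * Eloc X2 (mul (mul (mul cL cL) (cV (s, l))) (cV (s, l'))))) ≤
          (1 + 2 * e) * t ^ 2 := by
        have h6 := mul_le_mul_of_nonneg_left h4 (show 0 ≤ (gam N lam * Z) ^ 2 by positivity)
        rw [ht]
        calc _ = (gam N lam * Z) ^ 2 * (Q₀ * Eloc X2 (mul (mul (mul cL cL) (cV (s, l))) (cV (s, l')))) := by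
              ring
          _ ≤ _ := h6
          _ = _ := by ring
      have h6 := mul_le_mul_of_nonneg_left h1 hU.le
      have h7 : ∑ n ∈ NW (WW D₀) N κ, Ω n * (Vf (s, l) n * gf (s, l) n * (Vf (s, l') n * gf (s, l') n)) ≤
          gam N lam ^ 2 * (Z * Eloc X2 (mul (mul (mul cL cL) (cV (s, l))) (cV (s, l')))) + r' := by
        linarith
      have h8 := mul_le_mul_of_nonneg_left h7 hU.le
      linarith
    · intro l
      have h1 : ∑ n ∈ NW (WW D₀) N κ, Ω n * (Vf (s, l) n * gf (s, l) n) ^ 2 ≤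
          CE * ∑ n ∈ NW (WW D₀) N κ, Ω n * Vf (s, l) n ^ 2 := by
        rw [mul_sum]
        apply sum_le_sum
        intro n hn
        have h2 := hgi (s, l) n hn
        have h3 : 0 ≤ Ω n * Vf (s, l) n ^ 2 := mul_nonneg (hΩ0 n) (sq_nonneg _)
        calc Ω n * (Vf (s, l) n * gf (s, l) n) ^ 2 = (Ω n * Vf (s, l) n ^ 2) * gf (s, l) n ^ 2 := by ring
          _ ≤ (Ω n * Vf (s, l) n ^ 2) * CE := mul_le_mul_of_nonneg_left h2 h3
          _ = _ := by ring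
      refine h1.trans ?_
      have h2 := (abs_le.1 (ev3 (s, l))).2
      have h3 := (abs_le.1 (ap3 (s, l) (s, l))).2
      rw [id3] at h3
      have h4 := i4 (s, l)
      have h5 : Eid X2 (fun S => poly cL S ^ 2 * poly (cV (s, l)) S * poly (cV (s, l)) S) =
          Eid X2 (fun S => poly cL S ^ 2 * poly (cV (s, l)) S ^ 2) := by
        congr 1
        funext S
        ring
      rw [h5] at h3
      have h6 : Eloc X2 (mul (mul (mul cL cL) (cV (s, l))) (cV (s, l))) ≤ 5 / 2 * q := by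
        have : e * q ≤ 1 / 2 * q := mul_le_mul_of_nonneg_right (by rw [he]; norm_num) hq.le
        linarith
      have h7 := mul_le_mul_of_nonneg_left h6 hZ0.le
      have h8 : ∑ n ∈ NW (WW D₀) N κ, Ω n * Vf (s, l) n ^ 2 ≤ 3 * (Z * q) := by linarith
      have hCE0 : 0 ≤ CE := by rw [hCE]; positivity
      have h9 := mul_le_mul_of_nonneg_left h8 hCE0
      linarith
    · have h1 := mul_le_mul_of_nonneg_left n8 hZ0.le
      linarith
    · intro l
      refine (ht2 (s, l)).trans (le_of_eq ?_)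
      rw [sum_filter]
      apply sum_congr rfl
      intro n _
      simp only [hXf, hΩ]
      split_ifs <;> simp
    · have h1 := mul_le_mul_of_nonneg_left n9 hZ0.le
      rw [ht]
      linarith
    · linarith [n5]
    · linarith [n6]
    · intro n
      rw [hA]
      simp only [hXf]
      constructor
      · rintro ⟨l, hl⟩
        exact ⟨l, by rw [if_pos hl]; exact one_ne_zero⟩
      · rintro ⟨l, hl⟩
        refine ⟨l, ?_⟩
        by_contra h
        exact hl (if_neg h)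
    · intro l n hn
      simp only [hXf]
      split_ifs with h
      · rw [hpr (s, l) n hn h]
      · exact mul_nonneg (hV0 _ n) (hg0 _ n)
  have hS0pos : 0 < ∑ n ∈ NW (WW D₀) N κ, Ω n := by
    have h1 : (1 - e) * (Z * Q₀) = Z * Q₀ - e * (Z * Q₀) := by ring
    have h2 : 0 < (1 - e) * (Z * Q₀) := by
      have : 0 < 1 - e := by rw [he]; norm_num
      positivity
    rw [h1] at h2
    linarith [hS0.1]
  have hS0half : 1 / 2 * Z ≤ ∑ n ∈ NW (WW D₀) N κ, Ω n := by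
    have h1 : (1 - e) * (Z * Q₀) = Z * Q₀ - e * (Z * Q₀) := by ring
    have h2 : 1 / 2 * Z ≤ (1 - e) * (Z * Q₀) := by
      have h3 : 1 / 2 ≤ 1 - e := by rw [he]; norm_num
      have h4 : Z ≤ Z * Q₀ := le_mul_of_one_le_right hZ0.le hQ₀1
      exact mul_le_mul h3 h4 hZ0.le (by linarith)
    rw [h1] at h2
    linarith [hS0.1]
  have hmany := CC_many_eight (NW (WW D₀) N κ) Ω A (fun n _ => hΩ0 n) hmain
  have hfil : ((NW (WW D₀) N κ).filter fun n =>
      8 ≤ (univ.filter fun s : Fin 26 => ∃ l, (a (s, l) * n + 1).Prime).card) =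
      (NW (WW D₀) N κ).filter fun n => 8 ≤ (univ.filter fun s => A s n).card := by
    apply filter_congr
    intro n _
    have h1 : (univ.filter fun s : Fin 26 => ∃ l, (a (s, l) * n + 1).Prime) =
        univ.filter fun s => A s n := filter_congr fun s _ => (hA s n).symm
    rw [h1]
  rw [hfil]
  obtain ⟨f1, _, _⟩ := full_props hLOC hD hDN hη hN1 hδ hC1 h0 m1
  have hΩB : ∀ n, Ω n ≤ B := by
    intro n
    have h1 : Ω n = poly (mul c0 (mul cL cL)) (ev a X n) := by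
      simp only [hΩ]
      rw [hL1, hL1]
      ring
    rw [h1]
    unfold poly
    calc ∑ T ∈ (ev a X n).powerset, mul c0 (mul cL cL) T
        ≤ ∑ T ∈ (ev a X n).powerset, |mul c0 (mul cL cL) T| := sum_le_sum fun T _ => le_abs_self _
      _ ≤ ∑ T ∈ X.powerset, |mul c0 (mul cL cL) T| := by
          apply sum_le_sum_of_subset_of_nonneg
          · apply powerset_mono.2
            unfold ev
            exact filter_subset _ _
          · intro T _ _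
            exact abs_nonneg _
      _ ≤ B := hB _ f1
  have hsumB : ∑ n ∈ (NW (WW D₀) N κ).filter (fun n => 8 ≤ (univ.filter fun s => A s n).card), Ω n ≤
      B * (((NW (WW D₀) N κ).filter fun n => 8 ≤ (univ.filter fun s => A s n).card).card : ℝ) := by
    have h1 := sum_le_card_nsmul ((NW (WW D₀) N κ).filter fun n => 8 ≤ (univ.filter fun s => A s n).card) Ω B
      (fun n _ => hΩB n)
    rw [nsmul_eq_mul] at h1
    linarith
  linarith

end Pool.Agent.GapTwo.CORED_
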