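import Pool.Agent.Work.MP_1ea053_nt.IG

/-!
# MP_1ea053_nt: a power of max S missing pairs. Block statements COREC, PAIRC, REDC.
-/

set_option autoImplicit false

namespace Pool.Agent.GapTwo

open Finset

/-- At least `N ^ (97/100)` integers `n` of `(N, (1 + κ) N]` for which at least 8 of the 26 clusters are hit by a
prime. -/
def Stmt_COREC : Prop := ∃ k : ℕ, 1 ≤ k ∧ ∀ a : Fin 26 × Fin k → ℕ, (∀ i, 0 < a i) →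
  Function.Injective a → ∀ κ : ℝ, 0 < κ → κ ≤ 1 → ∃ N₀ : ℝ, ∀ N : ℝ, N₀ ≤ N →
  ∃ B : Finset ℕ, N ^ (97 / 100 : ℝ) ≤ (B.card : ℝ) ∧ ∀ n ∈ B, N < n ∧ (n : ℝ) ≤ (1 + κ) * N ∧
    ∃ T : Finset (Fin 26), 8 ≤ T.card ∧ ∀ s ∈ T, ∃ l : Fin k, (a (s, l) * n + 1).Prime

/-- Every long window contains at least `x ^ (96/100)` pairs of consecutive integers with huge prime factors. -/
def Stmt_PAIRC : Prop := ∃ K : ℕ, 0 < K ∧ ∃ x₀ : ℕ, ∀ x : ℕ, x₀ ≤ x → ∃ M : Finset ℕ,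
  (x : ℝ) ^ (96 / 100 : ℝ) ≤ (M.card : ℝ) ∧
  ∀ m ∈ M, ∃ p q : ℕ, p.Prime ∧ q.Prime ∧ p ∣ m ∧ q ∣ m + 1 ∧ x ≤ K * p ∧ x ≤ K * q ∧
    (x : ℝ) / 2.717 < m ∧ m + 1 < x

def Stmt_PAIRCD : Prop := Stmt_COREC → Stmt_FORMS → Stmt_COMB → Stmt_PAIRC

/-- Window form. -/
def Final_WC : Prop := ∀ C D : ℕ, 0 < D → ∃ X₀ : ℕ, ∀ S : Finset ℕ, (∀ s ∈ S, 0 < s) →
  (∃ z : ℕ, (D : ℚ) * ∑ s ∈ S, (1 : ℚ) / s = z) → ∀ X : ℕ, X₀ ≤ X → (∀ s ∈ S, s ≤ X) → ∀ x : ℕ, x ≤ X → X ≤ C * x →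
  (X : ℝ) ^ (95 / 100 : ℝ) ≤
    (((Finset.range x).filter fun m : ℕ => (x : ℝ) / 2.717 < m ∧ m + 1 < x ∧ m ∉ S ∧ m + 1 ∉ S).card : ℝ)

/-- Final form: only finitely many finite sets of positive integers with reciprocal sum at least 1 and in `(1/D) ℤ` have
less than `(max S) ^ (95/100)` missing pairs. -/
def Final_C : Prop := ∀ D : ℕ, 0 < D → {S : Finset ℕ | 2 ≤ S.card ∧ (∀ s ∈ S, 0 < s) ∧
  1 ≤ ∑ s ∈ S, (1 : ℚ) / s ∧ (∃ z : ℕ, (D : ℚ) * ∑ s ∈ S, (1 : ℚ) / s = z) ∧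
  ({m : ℕ | m ∉ S ∧ m + 1 ∉ S ∧ (∃ x ∈ S, x < m) ∧ ∃ y ∈ S, m + 1 < y}.ncard : ℝ) <
    ((S.sup id : ℕ) : ℝ) ^ (95 / 100 : ℝ)}.Finite

/-- Block REDC, as REDG. -/
def Stmt_REDC : Prop := Stmt_PAIRC → Final_WC ∧ Final_C

end Pool.Agent.GapTwo
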