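import Pool.Agent.Work.MP_1ea053_pw.Cc5

/-!
# COREC, part 6: the final theorem, with a count
-/

set_option autoImplicit false

namespace Pool.Agent.GapTwo

open Finset Filter
open scoped Classical Topology
open CORED_

theorem stmt_COREC (hT1 : Stmt_T1) (hT2 : Stmt_T2) (hLOC : Stmt_LOC) (hBASE : Stmt_BASE)
    (hIDEAL : Stmt_IDEAL) (hROS : Stmt_ROS) (hCONST : Stmt_CONST) (hMER : Stmt_MER)
    (hVAR : Stmt_VAR) : Stmt_COREC := by
  obtain ⟨e, he⟩ : ∃ e : ℝ, e = 1 / 10 ^ 12 := ⟨_, rfl⟩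
  have he0 : 0 < e := by rw [he]; norm_num
  obtain ⟨δ, hδ⟩ : ∃ δ : ℝ, δ = δ₀ / 8 := ⟨_, rfl⟩
  have hδ0 : 0 < δ := by rw [hδ]; unfold δ₀; norm_num
  have h8δ : 8 * δ = δ₀ := by rw [hδ]; ring
  have hδs : δ ≤ 1 / 1000000 := by rw [hδ]; unfold δ₀; norm_num
  obtain ⟨ε₃, hε₃, hbase⟩ := hBASE e δ he0 hδ0
  obtain ⟨η, hη0, hηδ, hideal⟩ := hIDEAL e δ he0 hδ0
  have hη100 : η ≤ 1 / 100 := by linarith
  obtain ⟨CE, hCE⟩ : ∃ CE : ℝ, CE = 4 ^ ⌊2 / η⌋₊ := ⟨_, rfl⟩
  have hCE0 : 0 < CE := by rw [hCE]; positivity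
  obtain ⟨C₀, hC₀⟩ : ∃ C₀ : ℝ, C₀ = 12 * CE / (η * e) := ⟨_, rfl⟩
  have hC₀0 : 0 < C₀ := by rw [hC₀]; positivity
  obtain ⟨k, η₁, Cb, hk, hη₁0, hη₁η, hkη₁, hCb, N₁, hid⟩ := hideal C₀ ε₃ hC₀0 hε₃
  obtain ⟨M, N₂, hros⟩ := hROS e he0 η hη0 hη100
  obtain ⟨ε₃', hε₃', hvar⟩ := hVAR η hη0 hη100 M
  refine ⟨k, hk, fun a ha hinj κ hκ0 hκ1 => ?_⟩
  have hk1 : (1 : ℝ) ≤ k := by exact_mod_cast hk
  have hC27 : (1 : ℝ) ≤ 27 * Cb ^ 2 := by
    have := one_le_pow₀ hCb (n := 2)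
    linarith
  have hC81 : (1 : ℝ) ≤ 3 * (27 * Cb ^ 2) := by linarith
  have : Nonempty (Fin 26 × Fin k) := ⟨(0, ⟨0, hk⟩)⟩
  have hcard : Fintype.card (Fin 26 × Fin k) = 26 * k := by simp
  obtain ⟨D₁, hD₁⟩ := hbase (ι := Fin 26 × Fin k)
  obtain ⟨D₀, hD₀⟩ : ∃ D₀ : ℕ, D₀ = D₁ + 2 * (26 * k) + (∑ i, a i) + 2 := ⟨_, rfl⟩
  have hD2 : 2 ≤ D₀ := by omega
  have hDa : ∀ i, a i < D₀ := by
    intro i
    have := single_le_sum (f := a) (fun j _ => Nat.zero_le _) (mem_univ i)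
    omega
  have hDr : (2 : ℝ) ≤ D₀ := by exact_mod_cast hD2
  obtain ⟨N₃, hb⟩ := hD₁ D₀ (by omega) η₁ hη₁0 (by rw [hcard]; push_cast; linarith)
  obtain ⟨C', N₄, happ⟩ := hLOC.2.2.2.2 (ι := Fin 26 × Fin k) η₁ η (27 * Cb ^ 2) hη₁0 hη₁η
    (by linarith) hC27
  obtain ⟨N₅, ht2⟩ := hT2 a D₀ ha hinj hDa (3 * (27 * Cb ^ 2)) κ e (26 * k + 1) hκ0 hκ1 he0
  obtain ⟨N₆, hv⟩ := hvar a D₀ ha hinj hDa (3 * (27 * Cb ^ 2)) κ hC81 hκ0 hκ1
  obtain ⟨N₇, hsa⟩ := sum_abs_le' (ι := Fin 26 × Fin k) (3 * (27 * Cb ^ 2)) (1 / 1000)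
    hC81 (by norm_num)
  obtain ⟨cs, hcs0, hcs⟩ := small_prod (26 * k) (by omega) D₀ (by omega) hη₁0 (by linarith)
  -- constants
  have hWp : (0 : ℝ) < WW D₀ := by exact_mod_cast WW_pos D₀
  obtain ⟨q₀, hq₀⟩ : ∃ q₀ : ℝ, q₀ = C₀ / (k * η₁) := ⟨_, rfl⟩
  have hq₀0 : 0 < q₀ := by rw [hq₀]; positivity
  obtain ⟨q₁, hq₁⟩ : ∃ q₁ : ℝ, q₁ = η₁ / (2 * η) * q₀ := ⟨_, rfl⟩
  have hq₁0 : 0 < q₁ := by rw [hq₁]; positivity
  obtain ⟨s₁, hs₁⟩ : ∃ s₁ : ℝ, s₁ = e * min (1 / 2) (min q₁ (min (q₁ ^ 2) q₀)) := ⟨_, rfl⟩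
  have hs₁0 : 0 < s₁ := by
    rw [hs₁]
    apply mul_pos he0
    refine lt_min (by norm_num) (lt_min hq₁0 (lt_min (by positivity) hq₀0))
  have hs₁a : s₁ ≤ e * (1 / 2) := by
    rw [hs₁]; exact mul_le_mul_of_nonneg_left (min_le_left _ _) he0.le
  have hs₁b : s₁ ≤ e * q₁ := by
    rw [hs₁]
    exact mul_le_mul_of_nonneg_left ((min_le_right _ _).trans (min_le_left _ _)) he0.le
  have hs₁c : s₁ ≤ e * q₁ ^ 2 := by
    rw [hs₁]
    exact mul_le_mul_of_nonneg_left ((min_le_right _ _).trans ((min_le_right _ _).trans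
      (min_le_left _ _))) he0.le
  have hs₁d : s₁ ≤ e * q₀ := by
    rw [hs₁]
    exact mul_le_mul_of_nonneg_left ((min_le_right _ _).trans ((min_le_right _ _).trans
      (min_le_right _ _))) he0.le
  obtain ⟨cZ, hcZ⟩ : ∃ cZ : ℝ, cZ = κ / WW D₀ * cs := ⟨_, rfl⟩
  have hcZ0 : 0 < cZ := by rw [hcZ]; positivity
  -- eventual facts
  have E3 : ∀ᶠ N : ℝ in atTop, Real.log N * PP (N ^ η₁) ≤ 1 / η₁ := by
    refine (mer_rpow hMER hη₁0).eventually_le_const ?_
    exact div_lt_div_of_pos_right eg_lt hη₁0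
  have E4 : ∀ᶠ N : ℝ in atTop, (Pool.Agent.LinearSieve.fns.A / 3 + e) *
      (Real.log N * PP (N ^ (θ₀ / 3))) ≤ 3.70985 := by
    have hθ : (0 : ℝ) < θ₀ / 3 := by unfold θ₀; norm_num
    have h1 := (mer_rpow hMER hθ).const_mul (Pool.Agent.LinearSieve.fns.A / 3 + e)
    refine h1.eventually_le_const ?_
    have h2 : (Pool.Agent.LinearSieve.fns.A / 3 + e) *
        (Real.exp (-Real.eulerMascheroniConstant) / (θ₀ / 3)) =
        (Pool.Agent.LinearSieve.fns.A * Real.exp (-Real.eulerMascheroniConstant) +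
          3 * e * Real.exp (-Real.eulerMascheroniConstant)) / θ₀ := by
      unfold θ₀
      ring
    rw [h2]
    have h3 : Pool.Agent.LinearSieve.fns.A * Real.exp (-Real.eulerMascheroniConstant) ≤ 2.02 := hCONST
    have h4 : 3 * e * Real.exp (-Real.eulerMascheroniConstant) ≤ 3 * e := by
      have := eg_lt
      nlinarith
    rw [div_lt_iff₀ (by unfold θ₀; norm_num)]
    unfold θ₀
    have h5 : 3 * e ≤ 3 / 10 ^ 12 := by rw [he]; norm_num
    norm_num at h5 ⊢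
    norm_num at h3
    linarith
  have E5 : ∀ᶠ N : ℝ in atTop, η₁ / (2 * η) ≤ ∏ p ∈ PR (N ^ η₁) (N ^ η), (1 - 1 / (p : ℝ)) := by
    refine (rho_tend hMER hη₁0 hη₁η).eventually_const_le ?_
    exact div_lt_div_of_pos_left hη₁0 hη0 (by linarith)
  have E5' : ∀ᶠ N : ℝ in atTop, ∏ p ∈ PR (N ^ η₁) (N ^ η), (1 - 1 / (p : ℝ)) ≤ 2 * η₁ / η := by
    refine (rho_tend hMER hη₁0 hη₁η).eventually_le_const ?_
    exact div_lt_div_of_pos_right (by linarith) hη0
  have E7 : ∀ᶠ N : ℝ in atTop, C' * N ^ (-η₁) ≤ s₁ := by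
    have h1 := (tendsto_rpow_neg_atTop hη₁0).const_mul C'
    rw [mul_zero] at h1
    exact h1.eventually_le_const hs₁0
  have F4 := pow_small (99 / 100) (e / 2 * cZ) (by norm_num) (by positivity) (26 * k)
  have F5 := pow_small (4455 / 10000) (e * (η₁ * q₀) * cZ) (by norm_num) (by positivity) (26 * k)
  have F6 := pow_small ε₃' (e * (η₁ * q₀ * (η₁ * q₀)) * cZ) hε₃' (by positivity) (26 * k)
  have F7 := pow_small (99 / 100) (1 / 2 * q₁ * cZ) (by norm_num) (by positivity) (26 * k)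
  have F8 := log_small (e * (η₁ * q₀) * cZ) (by positivity) (26 * k)
  have F9 := pow_small (1 / 50) (1 / 10 ^ 6 * cZ) (by norm_num) (by positivity) (26 * k)
  have hfin : ∀ᶠ N : ℝ in atTop, ∃ B : Finset ℕ, N ^ (97 / 100 : ℝ) ≤ (B.card : ℝ) ∧ ∀ n ∈ B,
      N < n ∧ (n : ℝ) ≤ (1 + κ) * N ∧
      ∃ T : Finset (Fin 26), 8 ≤ T.card ∧ ∀ s ∈ T, ∃ l : Fin k, (a (s, l) * n + 1).Prime := by
    filter_upwards [E3, E4, E5, E5', E7, F4, F5, F6, F7, F8, F9, hcs,
      (tend_rpow hη₁0).eventually_ge_atTop (D₀ : ℝ), eventually_ge_atTop (3 * (D₀ : ℝ)),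
      eventually_ge_atTop N₁, eventually_ge_atTop N₂, eventually_ge_atTop N₃,
      eventually_ge_atTop N₄, eventually_ge_atTop N₅, eventually_ge_atTop N₆,
      eventually_ge_atTop N₇] with N e3 e4 e5 e5' e7 f4 f5 f6 f7 f8 f9 hcsN hDN hN3D g1 g2 g3 g4 g5 g6 g7
    have hN3 : 3 ≤ N := by linarith
    have hN1 : 1 ≤ N := by linarith
    have hN0 : 0 < N := by linarith
    have hL : 0 < Real.log N := Real.log_pos (by linarith)
    have hηη : N ^ η₁ ≤ N ^ η := Real.rpow_le_rpow_of_exponent_le hN1 hη₁η.le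
    obtain ⟨cL, cV, Q, w1, w2, w3, w4, w5, w6, w7, w8, w9, w10, w11, w12, w13⟩ := hid N g1
    obtain ⟨lam, hlam, hgam⟩ := hros N g2
    obtain ⟨c0, b1, b2, b3, b4, b5, b6⟩ := hb N g3
    have hap := happ N g4
    rw [hcard] at b4 b5 b6
    push_cast at b4 b5 b6 hcsN
    set X1 := XX (Fin 26 × Fin k) D₀ (N ^ η₁) with hX1
    set X2 := XX (Fin 26 × Fin k) (N ^ η₁) (N ^ η) with hX2
    set X := XX (Fin 26 × Fin k) D₀ (N ^ η) with hX
    set ρ := ∏ p ∈ PR (N ^ η₁) (N ^ η), (1 - 1 / (p : ℝ)) with hρ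
    set Q₀ := Eid X2 (fun S => poly cL S ^ 2) with hQ₀
    set Z := κ * N / WW D₀ * Eloc X1 c0 with hZ
    have hN2 : (2 : ℝ) ≤ N ^ η₁ := hDr.trans hDN
    have hρ0 : 0 < ρ := prod_PR_pos hN2
    have hQ₀1 : 1 ≤ Q₀ := w12
    have hQq : q₀ * Q₀ ≤ Q := by
      rw [hq₀, div_mul_eq_mul_div, div_le_iff₀ (by positivity)]
      linarith [w13]
    have hQq' : q₀ ≤ Q := (le_mul_of_one_le_right hq₀0.le hQ₀1).trans hQq
    -- Z
    have hprodK0 : 0 < cs / Real.log N ^ (26 * k) := by positivity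
    have hEc0 : 0 < Eloc X1 c0 := by linarith
    have hZ0 : 0 < Z := by rw [hZ]; positivity
    have hZlow : cZ * (N / Real.log N ^ (26 * k)) ≤ Z := by
      have h1 : cs / Real.log N ^ (26 * k) ≤ Eloc X1 c0 := hcsN.trans b4
      have h2 := mul_le_mul_of_nonneg_left h1 (show 0 ≤ κ * N / WW D₀ by positivity)
      rw [hZ]
      refine le_trans (le_of_eq ?_) h2
      rw [hcZ]
      ring
    set PN := PP (N ^ η₁) with hPN
    have hPN0 : 0 < PN := PP_pos _
    have hLP : 0 < Real.log N * PN := by positivity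
    obtain ⟨x, hx⟩ : ∃ x : ℝ, x = Q / (Q₀ * (Real.log N * PN)) := ⟨_, rfl⟩
    have hx0 : 0 < x := by rw [hx]; positivity
    -- x Q₀ ≥ η₁ Q
    have hxQ : x * Q₀ = Q / (Real.log N * PN) := by rw [hx]; field_simp
    have hxQ' : η₁ * Q ≤ x * Q₀ := by
      rw [hxQ, le_div_iff₀ hLP]
      have h1 := mul_le_mul_of_nonneg_left e3 (show 0 ≤ η₁ * Q by positivity)
      have h2 : η₁ * Q * (1 / η₁) = Q := by field_simp
      linarith
    have hxlow : η₁ * q₀ ≤ x := by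
      have h1 : η₁ * (q₀ * Q₀) ≤ x * Q₀ := (mul_le_mul_of_nonneg_left hQq hη₁0.le).trans hxQ'
      have h2 : η₁ * q₀ * Q₀ ≤ x * Q₀ := by linarith
      exact le_of_mul_le_mul_right h2 (by linarith)
    have hxQlow : η₁ * q₀ ≤ x * Q₀ := (mul_le_mul_of_nonneg_left hQq' hη₁0.le).trans hxQ'
    have hq : q₁ ≤ ρ * Q := by
      rw [hq₁]
      exact mul_le_mul e5 hQq' hq₀0.le hρ0.le
    have hq0 : 0 < ρ * Q := by positivity
    -- small primes etc
    have hNδ0 : N ^ (8 * δ) * N ^ (1 / 1000 : ℝ) ≤ N ^ (1 - 99 / 100 : ℝ) := by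
      rw [← Real.rpow_add hN0]
      apply Real.rpow_le_rpow_of_exponent_le hN1
      linarith
    have hθB : N ^ θ₀ * N ^ (1 - 99 / 100 : ℝ) = N ^ (1 - 4455 / 10000 : ℝ) := by
      rw [← Real.rpow_add hN0]
      congr 1
      unfold θ₀
      norm_num
    have hxZ : e * (η₁ * q₀) * Z ≤ e * (x * (Z * Q₀)) := by
      have h1 := mul_le_mul_of_nonneg_left hxQlow (show 0 ≤ e * Z by positivity)
      linarith
    have key := core_fixedC hT1 hLOC hk a ha hinj hDa (N := N) (η₁ := η₁) (η := η) (δ := δ) (Cb := Cb)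
      (κ := κ) hD2 hκ0 hκ1 hDN hηη hη0 (by linarith) hN3 hN3D hδ0 (by linarith) hCb
      (by unfold θ₀; linarith) b1 b2 w1 w2 w3 w4 w5 hlam
      (B := N ^ (1 - 99 / 100 : ℝ)) (s₁ := s₁) (r' := N ^ (1 - ε₃'))
      (fun c' hc' => (hsa N g7 D₀ η _ hD2 (by linarith) (by positivity) c' hc').trans hNδ0)
      (fun c hc => (hap c hc).1.trans e7)
      (fun c hc i j hij => hv N g6 lam hlam c (by rw [← h8δ]; exact hc) i j hij)
      (Q := Q) (Q₀ := Q₀) (q := ρ * Q) (Z := Z) (x := x) (CE := CE) (e := e) he hZ hZ0 hQ₀ hQ₀1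
      hq0 hx0 hCE
      w8 w9 w10
      w11
      (by linarith) (hs₁b.trans (mul_le_mul_of_nonneg_left hq he0.le))
      (by
        -- Q₀ s₁ ≤ e (ρQ)²
        have h1 : Q₀ ≤ Q / q₀ := by rw [le_div_iff₀ hq₀0]; linarith
        have h2 : Q₀ * s₁ ≤ Q / q₀ * (e * q₁ ^ 2) := mul_le_mul h1 hs₁c hs₁0.le (by positivity)
        have h3 : Q / q₀ * (e * q₁ ^ 2) = e * (η₁ / (2 * η)) ^ 2 * (q₀ * Q) := by
          rw [hq₁]; field_simp
        have h4 : (η₁ / (2 * η)) ^ 2 ≤ ρ ^ 2 := pow_le_pow_left₀ (by positivity) e5 2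
        have h5 : q₀ * Q ≤ Q * Q := mul_le_mul_of_nonneg_right hQq' (by linarith)
        have h6 : (η₁ / (2 * η)) ^ 2 * (q₀ * Q) ≤ ρ ^ 2 * (Q * Q) :=
          mul_le_mul h4 h5 (by positivity) (by positivity)
        have h7 := mul_le_mul_of_nonneg_left h6 he0.le
        have h8 : e * (ρ * Q) ^ 2 = e * (ρ ^ 2 * (Q * Q)) := by ring
        rw [h8]
        linarith)
      (by positivity) (by positivity)
      (by
        have h1 := mul_le_mul_of_nonneg_left hZlow (show 0 ≤ e / 2 by positivity)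
        linarith)
      (by
        rw [hθB]
        have h1 := mul_le_mul_of_nonneg_left hZlow (show 0 ≤ e * (η₁ * q₀) by positivity)
        linarith)
      (by
        have h1 := mul_le_mul_of_nonneg_left hZlow (show 0 ≤ e * (η₁ * q₀ * (η₁ * q₀)) by positivity)
        have h2 : η₁ * q₀ * (η₁ * q₀) ≤ x * (x * Q₀) := mul_le_mul hxlow hxQlow (by positivity) hx0.le
        have h3 := mul_le_mul_of_nonneg_right h2 (show 0 ≤ e * Z by positivity)
        have h4 : e * (x ^ 2 * (Z * Q₀)) = x * (x * Q₀) * (e * Z) := by ring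
        rw [h4]
        linarith)
      (by
        have h1 := mul_le_mul_of_nonneg_left hZlow (show 0 ≤ 1 / 2 * q₁ by positivity)
        have h2 := mul_le_mul_of_nonneg_left hq (show 0 ≤ 1 / 2 * Z by positivity)
        linarith)
      (by
        -- 6 CE ρQ ≤ e k x² Q₀
        have h1 : 6 * CE * (ρ * Q) ≤ 6 * CE * (2 * η₁ / η * Q) := by
          apply mul_le_mul_of_nonneg_left _ (by positivity)
          exact mul_le_mul_of_nonneg_right e5' (by linarith)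
        have h2 : C₀ ≤ k * x := by
          have h3 := mul_le_mul_of_nonneg_left hxlow (show (0 : ℝ) ≤ k by positivity)
          have h4 : (k : ℝ) * (η₁ * q₀) = C₀ := by rw [hq₀]; field_simp
          linarith
        have h3 : C₀ * (η₁ * Q) ≤ k * x * (x * Q₀) :=
          mul_le_mul h2 hxQ' (by positivity) (by positivity)
        have h4 : e * (C₀ * (η₁ * Q)) = 6 * CE * (2 * η₁ / η * Q) := by
          rw [hC₀]; field_simp; ring
        have h5 := mul_le_mul_of_nonneg_left h3 he0.le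
        have h6 : e * k * x ^ 2 * Q₀ = e * (k * x * (x * Q₀)) := by ring
        rw [h6]
        linarith)
      (by
        -- gam ρQ ≤ 3.70985 x Q₀
        have hθη : N ^ η ≤ N ^ (θ₀ / 3) := by
          apply Real.rpow_le_rpow_of_exponent_le hN1
          unfold θ₀; linarith
        have h1 : PP (N ^ (θ₀ / 3)) = PN * ρ * ∏ p ∈ PR (N ^ η) (N ^ (θ₀ / 3)), (1 - 1 / (p : ℝ)) := by
          rw [PP_split (hN2.trans hηη) hθη, PP_split hN2 hηη]
        set R := ∏ p ∈ PR (N ^ η) (N ^ (θ₀ / 3)), (1 - 1 / (p : ℝ)) with hR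
        rw [h1] at e4
        have h2 : gam N lam * (ρ * Q) ≤ (Pool.Agent.LinearSieve.fns.A / 3 + e) * R * (ρ * Q) :=
          mul_le_mul_of_nonneg_right hgam hq0.le
        refine h2.trans ?_
        have h3 : 3.70985 * x * Q₀ = 3.70985 * (Q / (Real.log N * PN)) := by
          rw [← hxQ]; ring
        rw [h3]
        have h4 : (Pool.Agent.LinearSieve.fns.A / 3 + e) * R * (ρ * Q) =
            (Pool.Agent.LinearSieve.fns.A / 3 + e) * (Real.log N * (PN * ρ * R)) *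
              (Q / (Real.log N * PN)) := by
          field_simp
        rw [h4]
        exact mul_le_mul_of_nonneg_right e4 (by positivity))
      (by
        intro i
        obtain ⟨m1, _, _⟩ := med_props hLOC hN1 hδ0 hCb w1 w2
        obtain ⟨f1, _, f3⟩ := full_props hLOC hD2 hDN hηη hN1 hδ0 hC27 b1 m1
        have hXq : X ⊆ XX (Fin 26 × Fin k) D₀ (N ^ (1 / 4 : ℝ)) :=
          XX_mono le_rfl (Real.rpow_le_rpow_of_exponent_le hN1 (by linarith))
        have f1' : Lev (XX (Fin 26 × Fin k) D₀ (N ^ (1 / 4 : ℝ))) (mul c0 (mul cL cL))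
            (N ^ (1 / 3 : ℝ)) (3 * (27 * Cb ^ 2)) :=
          f1.mono hXq (Real.rpow_le_rpow_of_exponent_le hN1 (by linarith)) (zero_le_one.trans hC81) le_rfl
        have h1 := ht2 N g5 i _ f1'
        rw [EloI_mono hXq i _ (fun T hT => (f1.supp T hT).1), f3 i] at h1
        have h2 : ∑ n ∈ (NW (WW D₀) N κ).filter (fun n => (a i * n + 1).Prime),
            poly (mul c0 (mul cL cL)) (ev a (XX (Fin 26 × Fin k) D₀ (N ^ (1 / 4 : ℝ))) n) =
            ∑ n ∈ (NW (WW D₀) N κ).filter (fun n => (a i * n + 1).Prime),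
              poly c0 (ev a X n) * poly cL (ev a X n) ^ 2 := by
          apply sum_congr rfl
          intro n _
          rw [poly_ev_mono a hXq _ (fun T hT => (f1.supp T hT).1), hLOC.1, hLOC.1]
          ring
        rw [h2] at h1
        have hm1 : Lev X2 (mul cL cL) N (27 * Cb ^ 2) := by
          refine m1.mono (Subset.refl _) ?_ (zero_le_one.trans hC27) le_rfl
          calc N ^ (4 * δ) ≤ N ^ (1 : ℝ) := Real.rpow_le_rpow_of_exponent_le hN1 (by linarith)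
            _ = N := Real.rpow_one N
        have h3 := (abs_le.1 (((hap _ hm1).2 i).trans e7)).1
        have h4 : poly (mul cL cL) = fun S => poly cL S ^ 2 := by
          funext S
          rw [hLOC.1]; ring
        rw [h4] at h3
        have h5 := w7 i
        have hprpos : 0 < ∏ p ∈ PR D₀ (N ^ η₁), (1 - 1 / (p : ℝ)) := prod_PR_pos hDr
        have hprod : (∏ p ∈ PR D₀ (N ^ η₁), (1 - ((26 : ℝ) * k - 1) / ((p : ℝ) - 1))) *
            ∏ p ∈ PR D₀ (N ^ η₁), (1 - 1 / (p : ℝ)) = ∏ p ∈ PR D₀ (N ^ η₁), (1 - (26 : ℝ) * k / p) := by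
          rw [← prod_mul_distrib]
          apply prod_congr rfl
          intro p hp
          apply term_eq
          have := (mem_PR.1 hp).2.1
          linarith
        have hpr1 : 0 < ∏ p ∈ PR D₀ (N ^ η₁), (1 - ((26 : ℝ) * k - 1) / ((p : ℝ) - 1)) := by
          apply prod_pos
          intro p hp
          have h6 := (mem_PR.1 hp).2.1
          have h7 : (2 * (26 * k) + 2 : ℝ) ≤ D₀ := by
            have : 2 * (26 * k) + 2 ≤ D₀ := by omega
            exact_mod_cast this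
          have h8 : ((26 : ℝ) * k - 1) / ((p : ℝ) - 1) < 1 := by
            rw [div_lt_one (by linarith)]
            linarith
          linarith
        apply t2_part (S := ∑ n ∈ (NW (WW D₀) N κ).filter (fun n => (a i * n + 1).Prime),
              poly c0 (ev a X n) * poly cL (ev a X n) ^ 2) he h1
          (κN := κ * N) (W := WW D₀) (L := Real.log N) (PD := PP D₀) rfl rfl (b6 i) (Q := Q) _
          hprod (PN := PN) (PP_split hDr hDN) hZ b5 hx hL (PP_pos _) hprpos hpr1 hWp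
          (by positivity) (by linarith) (by linarith) _ hEc0
        · have : s₁ ≤ e * Q := hs₁d.trans (mul_le_mul_of_nonneg_left hQq' he0.le)
          have h12 : ∀ a b c : ℝ, a = b → a + (c - b) ≤ c := by
            intro a b c hab
            rw [hab]
            linarith
          have h13 : (1 - e) * Q + -s₁ ≤ EloI X2 i (mul cL cL) := by
            refine le_trans (add_le_add h5 h3) (h12 _ _ _ ?_)
            congr!
          have h14 : (1 - 2 * e) * Q ≤ EloI X2 i (mul cL cL) := by linarith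
          exact h14
        · have h6 := mul_le_mul_of_nonneg_left hZlow (show 0 ≤ e * (η₁ * q₀) by positivity)
          linarith)
    refine ⟨(NW (WW D₀) N κ).filter fun n =>
      8 ≤ (univ.filter fun s : Fin 26 => ∃ l, (a (s, l) * n + 1).Prime).card, ?_, ?_⟩
    · have k1 : 1 / 10 ^ 6 * cZ * (N / Real.log N ^ (26 * k)) ≤ 1 / 10 ^ 6 * Z := by
        have h1 := mul_le_mul_of_nonneg_left hZlow (show (0 : ℝ) ≤ 1 / 10 ^ 6 by norm_num)
        linarith
      have k2 : N ^ (1 - 1 / 50 : ℝ) ≤ 1 / 10 ^ 6 * Z := f9.trans k1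
      have k3 : N ^ (1 - 1 / 50 : ℝ) = N ^ (1 - 99 / 100 : ℝ) * N ^ (97 / 100 : ℝ) := by
        rw [← Real.rpow_add hN0]
        congr 1
        norm_num
      have k4 : 0 < N ^ (1 - 99 / 100 : ℝ) := Real.rpow_pos_of_pos hN0 _
      rw [k3] at k2
      refine le_of_mul_le_mul_left (k2.trans ?_) k4
      linarith
    · intro n hn
      obtain ⟨hn1, hn2⟩ := mem_filter.1 hn
      rcases mem_NW hN0.le hn1 with h | h
      · refine ⟨h.2.1, h.2.2, univ.filter fun s : Fin 26 => ∃ l, (a (s, l) * n + 1).Prime, hn2, ?_⟩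
        intro s hs
        exact (mem_filter.1 hs).2
      · exact h.elim
  obtain ⟨N₀, hN₀⟩ := eventually_atTop.1 hfin
  exact ⟨N₀, hN₀⟩

end Pool.Agent.GapTwo
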