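import Pool.Agent.Work.MP_1ea053_pw.IC
import Pool.Agent.Work.MP_1ea053_nt.REDG

/-!
# Block REDC
-/

set_option autoImplicit false

namespace Pool.Agent.GapTwo

open Finset

theorem finC (hP : Stmt_PAIRC) : Final_C := by
  obtain ⟨K, hK, x₀, hP⟩ := hP
  intro D hD
  set X : ℕ := max (K * (K * K.factorial + D) + 1) (max x₀ 27171) with hX
  refine Set.Finite.subset (Finset.finite_toSet (Finset.range X).powerset) ?_
  rintro S ⟨-, hpos, hsum, ⟨z, hz⟩, hG⟩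
  rw [Finset.mem_coe, Finset.mem_powerset]
  by_contra hcon
  rw [Finset.not_subset] at hcon
  obtain ⟨z₀, hz₀, hz₀X⟩ := hcon
  rw [Finset.mem_range, not_lt] at hz₀X
  have hne : S.Nonempty := ⟨z₀, hz₀⟩
  have hxsup : S.sup id = S.max' hne := by
    rw [Finset.max'_eq_sup', Finset.sup'_eq_sup]
  set x := S.max' hne with hx
  set x₁ := S.min' hne with hx₁
  have hxS : x ∈ S := S.max'_mem hne
  have hx₁S : x₁ ∈ S := S.min'_mem hne
  have hmax : ∀ y ∈ S, y ≤ x := fun y hy => S.le_max' y hy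
  have hmin : ∀ y ∈ S, x₁ ≤ y := fun y hy => S.min'_le y hy
  have hxX : X ≤ x := hz₀X.trans (hmax _ hz₀)
  have hx0 : K * (K * K.factorial + D) + 1 ≤ x := le_trans (le_max_left _ _) hxX
  have hx1 : x₀ ≤ x := le_trans (le_trans (le_max_left _ _) (le_max_right _ _)) hxX
  have hx2 : 27171 ≤ x := le_trans (le_trans (le_max_right _ _) (le_max_right _ _)) hxX
  obtain ⟨M, hMc, hM⟩ := hP x hx1
  have hbig : ∀ p : ℕ, x ≤ K * p → K * K.factorial < p ∧ D < p := by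
    intro p h
    have h2 : K * (K * K.factorial + D) < K * p := by omega
    have h3 := Nat.lt_of_mul_lt_mul_left h2
    exact ⟨by omega, by omega⟩
  have hfin : {m : ℕ | m ∉ S ∧ m + 1 ∉ S ∧ (∃ x ∈ S, x < m) ∧ ∃ y ∈ S, m + 1 < y}.Finite := by
    refine (Set.finite_Iio x).subset ?_
    rintro m ⟨-, -, -, y, hy, hmy⟩
    have := hmax y hy
    rw [Set.mem_Iio]
    omega
  have h2 : (M : Set ℕ) ⊆ {m : ℕ | m ∉ S ∧ m + 1 ∉ S ∧ (∃ x ∈ S, x < m) ∧ ∃ y ∈ S, m + 1 < y} := by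
    intro m hm
    obtain ⟨p, q, hp, hq, hpm, hqm, hKp, hKq, hm1, hm2⟩ := hM m (Finset.mem_coe.1 hm)
    have hm2' : m + 1 < x := by exact_mod_cast hm2
    have hlt : (x₁ : ℝ) < m := (REDG_.min_small hpos hsum hx₁S hmin hmax (by omega)).trans hm1
    refine ⟨?_, ?_, ⟨x₁, hx₁S, by exact_mod_cast hlt⟩, x, hxS, hm2'⟩
    · intro h
      obtain ⟨b2, b3⟩ := hbig p hKp
      exact REDG_.no_prime hpos hD hz hmax hp hKp b2 b3 h hpm
    · intro h
      obtain ⟨b2, b3⟩ := hbig q hKq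
      exact REDG_.no_prime hpos hD hz hmax hq hKq b2 b3 h hqm
  have h3 := Set.ncard_le_ncard h2 hfin
  rw [Set.ncard_coe_finset] at h3
  have h4 : (M.card : ℝ) ≤ ({m : ℕ | m ∉ S ∧ m + 1 ∉ S ∧ (∃ x ∈ S, x < m) ∧ ∃ y ∈ S, m + 1 < y}.ncard : ℝ) := by
    exact_mod_cast h3
  have hx1r : (1 : ℝ) ≤ x := by
    have : 1 ≤ x := by omega
    exact_mod_cast this
  have h5 : (x : ℝ) ^ (95 / 100 : ℝ) ≤ (x : ℝ) ^ (96 / 100 : ℝ) :=
    Real.rpow_le_rpow_of_exponent_le hx1r (by norm_num)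
  rw [hxsup] at hG
  linarith

end Pool.Agent.GapTwo
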