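import Pool.Agent.Work.MP_1ea053_nt.Main
import Pool.Agent.Work.MP_1ea053_nt.MISS
import Pool.Agent.Work.MP_1ea053_pw.PAIRC
import Pool.Agent.Work.MP_1ea053_pw.REDC
import Pool.Agent.Work.MP_1ea053_pw.COREx

/-!
# MP_1ea053_nt: assembly of the power form
-/

set_option autoImplicit false

namespace Pool.Agent.GapTwo

theorem coreC : Stmt_COREC :=
  stmt_CORECx stmt_T1 stmt_T2 stmt_LOC stmt_BASE stmt_IDEAL stmt_ROS stmt_CONST stmt_MER
    (stmt_VAR stmt_K)

theorem pairC : Stmt_PAIRC := stmt_PAIRCD coreC stmt_FORMS stmt_COMB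

theorem finalC : Final_C := finC pairC

end Pool.Agent.GapTwo
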